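import Pool.Agent.U180.DP.Stm

set_option autoImplicit false

open MeasureTheory ProbabilityTheory Filter Topology

namespace Pool.Agent.U283.DP

open Pool.Agent.U180.DP

theorem t_DIV (h1 : S_VOID) (h2 : S_LAW) (h3 : S_BCN) : S_DIV := by
  intro Ω _ P A B ε U hU hA hB hε x y hx hy hns
  obtain ⟨X₀, hX₀⟩ := h1 A B ε hA hB hε
  obtain ⟨n0, hn0⟩ := eventually_atTop.1 ((hx.eventually_ge_atTop (max X₀ 0)).and hy)
  have hmono : ∀ n m, n0 ≤ n → n < m → x n + y n ≤ x m := by
    intro n m hn hnm
    induction m, hnm using Nat.le_induction with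
    | base => exact (hn0 n hn).2.2.2
    | succ m hm ih =>
      have h4 := hn0 m (hn.trans (Nat.le_of_succ_le hm))
      have h5 := h4.2.2.2
      have h6 := h4.2.1
      linarith
  obtain ⟨hl1, -, -, -, hl5⟩ := h2 Ω P A U hU hA
  have h4 := h3 Ω P hU.prob (fun n => void A U (x (n + n0)) (y (n + n0))) (fun n => hl1 _ _)
    (fun n m hnm => by
      have ha := hn0 (n + n0) (Nat.le_add_left _ _)
      have hb := hn0 (m + n0) (Nat.le_add_left _ _)
      exact hl5 _ _ _ _ ((le_max_right _ _).trans ha.1) ha.2.1.le hb.2.1.le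
        (hmono _ _ (Nat.le_add_left _ _) (by omega)))
    (fun hs => hns ((summable_nat_add_iff n0).1
      (Summable.of_nonneg_of_le (fun n => (Real.exp_pos _).le) (fun n => by
        have ha := hn0 (n + n0) (Nat.le_add_left _ _)
        exact (hX₀ Ω P U hU _ _ ((le_max_left _ _).trans ha.1) ha.2.1 ha.2.2.1).1) hs)))
  filter_upwards [h4] with ω hω
  exact (tendsto_add_atTop_nat n0).frequently hω

end Pool.Agent.U283.DP
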